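import Pool.Agent.U198.FK.Fin

/-!
The interface of the random-cluster model with Dobrushin boundary conditions in a rectangle, for
ALL `q > 0` and ALL edge weights `x > 0` (critical: `x = √q`): the law of its number of steps is
smooth to all orders, also jointly with all the connections between the odd vertices (one
sublattice), with bounds which are uniform in `q` and `x` (compact sets), in the rectangle and in
the boundary points.

Library: rectangles `Dm`, open edges with the wired arc `Dm.cfg`, exploration path `Dm.walk`, its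
number of steps `Dm.len` (`Pool.Agent.H984R4.NP.Defs`), `Reach` (`Pool.Agent.H974R2.Lattice`).
-/

set_option autoImplicit false

namespace Pool.Agent.Results.MP_216314_pr.InterfaceStepsAllQ

open H974 H984P H984N

/-- The number of clusters: the connected components of the rectangle
`{l, …, r} × {0, …, h}` for the edges of `F` and of the wired arc. -/
noncomputable def clusters (D : Dm) (F : Finset Edg) : ℕ :=
  Set.ncard {C : Set Vtx | ∃ v : Vtx, ((D.l ≤ v.1 ∧ v.1 ≤ D.r) ∧ (0 ≤ v.2 ∧ v.2 ≤ D.h)) ∧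
    C = {u | Reach (D.cfg F) v u}}

/-- The weight `x ^ (number of open edges) q ^ (number of clusters)`. -/
noncomputable def weight (q x : ℝ) (D : Dm) (F : Finset Edg) : ℝ :=
  x ^ F.card * q ^ clusters D F

/-- The mean value of `f` in the random-cluster model. -/
noncomputable def mean (q x : ℝ) (D : Dm) (f : Finset Edg → ℝ) : ℝ :=
  (∑ F ∈ D.edges.powerset, weight q x D F * f F) / ∑ F ∈ D.edges.powerset, weight q x D F

/-- The mean value of `(N + 1) ^ (-r / 2)`, with `N` the number of steps of the interface. -/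
noncomputable def inv (r : ℕ) (q x : ℝ) (D : Dm) : ℝ :=
  mean q x D (fun F => 1 / Real.sqrt ((D.len F : ℝ) + 1) ^ r)

/-- `G` does not change when an isolated even vertex is attached to a neighbour by opening one
edge. -/
def Invariant (D : Dm) (G : Finset Edg → ℝ) : Prop :=
  ∀ F ⊆ D.edges, ∀ e ∈ D.edges, ∀ y : Vtx, Even (y.1 + y.2) → (src e = y ∨ tgt e = y) →
    (∀ e' ∈ D.cfg F, src e' ≠ y ∧ tgt e' ≠ y) → G (insert e F) = G F

/-- All the connections between odd vertices: the pairs of odd vertices in the same cluster. -/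
def conn (D : Dm) (F : Finset Edg) : Set (Vtx × Vtx) :=
  {p | Odd (p.1.1 + p.1.2) ∧ Odd (p.2.1 + p.2.2) ∧ Reach (D.cfg F) p.1 p.2}

open Pool.Agent.U198.FK (wt)

theorem weight_eq (q x : ℝ) (D : Dm) (F : Finset Edg) : weight q x D F = wt q x D F := rfl

theorem conn_inv (D : Dm) (φ : Set (Vtx × Vtx) → ℝ) : Invariant D (fun F => φ (conn D F)) := by
  intro F _ e _ y hy hey hiso
  show φ (conn D (insert e F)) = φ (conn D F)
  congr 1
  ext p
  obtain ⟨u, v⟩ := p
  show (Odd (u.1 + u.2) ∧ Odd (v.1 + v.2) ∧ Reach (D.cfg (insert e F)) u v) ↔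
    (Odd (u.1 + u.2) ∧ Odd (v.1 + v.2) ∧ Reach (D.cfg F) u v)
  rw [Pool.Agent.U198.FK.cfg_insert]
  have hcl : ∀ w, Reach (D.cfg F) y w → w = y := by
    intro w hw
    have h1 := Pool.Agent.U198.FK.cl_isolated hiso
    have h2 : w ∈ Pool.Agent.U198.FK.cl (D.cfg F) y := hw
    rw [h1] at h2
    exact h2
  have hodd : ∀ w : Vtx, Odd (w.1 + w.2) → w ≠ y := by
    rintro w hw rfl
    exact (Int.not_even_iff_odd.2 hw) hy
  constructor
  · rintro ⟨h1, h2, h3⟩
    refine ⟨h1, h2, ?_⟩
    rcases Pool.Agent.U198.FK.reach_insert h3 with h4 | ⟨h4, h5⟩ | ⟨h4, h5⟩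
    · exact h4
    · exfalso
      rcases hey with h6 | h6
      · rw [h6] at h4
        exact hodd u h1 (hcl u h4.symm)
      · rw [h6] at h5
        exact hodd v h2 (hcl v h5)
    · exfalso
      rcases hey with h6 | h6
      · rw [h6] at h5
        exact hodd v h2 (hcl v h5)
      · rw [h6] at h4
        exact hodd u h1 (hcl u h4.symm)
  · rintro ⟨h1, h2, h3⟩
    exact ⟨h1, h2, Pool.Agent.U198.FK.reach_mono (Set.subset_insert _ _) h3⟩

open Pool.Agent.N929.EG in
theorem cos_diff (t s : ℝ) (r n : ℕ) :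
    Seq.D 4 r (fun n => Real.cos (t * n + s)) n =
      (2 * Real.sin (2 * t)) ^ r * Real.cos (t * n + (s + r * (2 * t - Real.pi / 2))) := by
  induction r generalizing n with
  | zero => simp [Seq.D_zero]
  | succ r ih =>
    rw [Seq.D_succ, ih, ih, ← mul_sub, pow_succ, mul_assoc]
    congr 1
    obtain ⟨a, ha⟩ : ∃ a : ℝ, a = t * n + s + r * (2 * t - Real.pi / 2) := ⟨_, rfl⟩
    have e1 : t * (n : ℝ) + (s + r * (2 * t - Real.pi / 2)) = a := by rw [ha]; ring
    have e2 : t * ((n + 4 : ℕ) : ℝ) + (s + r * (2 * t - Real.pi / 2)) = a + 4 * t := by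
      rw [ha]
      push_cast
      ring
    have e3 : t * (n : ℝ) + (s + ((r + 1 : ℕ) : ℝ) * (2 * t - Real.pi / 2)) =
        (a + 2 * t) - Real.pi / 2 := by
      rw [ha]
      push_cast
      ring
    rw [e1, e2, e3, Real.cos_sub_pi_div_two, Real.cos_sub_cos]
    have e4 : (a + (a + 4 * t)) / 2 = a + 2 * t := by ring
    have e5 : (a - (a + 4 * t)) / 2 = -(2 * t) := by ring
    rw [e4, e5, Real.sin_neg]
    ring

open Pool.Agent.N929.EG in
/-- **Theorem.** (A) Let `c ≥ 1`, `A ≥ 0` and `r ≥ 0`. There is `B` such that for all `q` and `x` in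
`[1 / c, c]`, every rectangle `D` of width at most `A` times its height with boundary points, and every
functional `G` of the configuration with values in `[0, 1]` which does not change when an isolated
even vertex is attached by one edge, the number of steps `N` of the interface satisfies, in the
random-cluster model with weights `x ^ (open edges) q ^ (clusters)`: (0) `N` is at least the
height of `D`; (1) `|∑_i (-1)^i (r choose i) E [G g(N + 4 i)]| ≤ B E [(N + 1)^(-r/2)]` for all functions `g` with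
values in `[-1, 1]`; (2) `|∑_i (-1)^i (r choose i) E [G; N + 4 i = k]| ≤ B E [(N + 1)^(-(r+1)/2)]`
for all `k`; (3) `|2 sin 2t|^r |E [G cos (t N + s)]| ≤ B E [(N + 1)^(-r/2)]` for all real `t`, `s`.
(B) Every function of all the connections between the odd vertices is such a functional. -/
theorem result :
    (∀ (c A : ℝ) (r : ℕ), 1 ≤ c → 0 ≤ A → ∃ B : ℝ, ∀ q x : ℝ, 1 / c ≤ q → q ≤ c → 1 / c ≤ x →
      x ≤ c → ∀ D : Dm, D.Ok → ((D.r - D.l : ℤ) : ℝ) ≤ A * D.h → ∀ G : Finset Edg → ℝ,
      (∀ F ⊆ D.edges, 0 ≤ G F ∧ G F ≤ 1) → Invariant D G →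
        (∀ F ⊆ D.edges, D.h ≤ D.len F) ∧
        (∀ g : ℕ → ℝ, (∀ n, |g n| ≤ 1) →
          |∑ i ∈ Finset.range (r + 1), (-1 : ℝ) ^ i * (r.choose i : ℝ) *
            mean q x D (fun F => G F * g (D.len F + 4 * i))| ≤ B * inv r q x D) ∧
        (∀ k : ℕ, |∑ i ∈ Finset.range (r + 1), (-1 : ℝ) ^ i * (r.choose i : ℝ) *
            mean q x D (fun F => G F * if D.len F + 4 * i = k then 1 else 0)| ≤
            B * inv (r + 1) q x D) ∧
        ∀ t s : ℝ, |2 * Real.sin (2 * t)| ^ r *
            |mean q x D (fun F => G F * Real.cos (t * D.len F + s))| ≤ B * inv r q x D) ∧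
    ∀ (D : Dm) (φ : Set (Vtx × Vtx) → ℝ), Invariant D (fun F => φ (conn D F)) := by
  refine ⟨?_, conn_inv⟩
  intro c A r hc hA
  have hc0 : 0 < c := by linarith
  have key0 : ∀ r : ℕ, ∃ B : ℝ, 0 ≤ B ∧ ∀ q x : ℝ, 1 / c ≤ q → q ≤ c → 1 / c ≤ x →
      x ≤ c → ∀ D : Dm, D.Ok → ((D.r - D.l : ℤ) : ℝ) ≤ A * D.h → ∀ G : Finset Edg → ℝ,
      (∀ F ⊆ D.edges, 0 ≤ G F ∧ G F ≤ 1) → Invariant D G →
        ∀ g : ℕ → ℝ, (∀ n, |g n| ≤ 1) →
          |mean q x D (fun F => G F * Seq.D 4 r g (D.len F))| ≤ B * inv r q x D := by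
    intro r
    obtain ⟨C1, hC1, h1⟩ := Pool.Agent.U198.FK.mainA (show 0 < 2 * c by linarith) r
    obtain ⟨C2, hC2, h2⟩ := Pool.Agent.U198.FK.mainB (ρ := c + c * c) (A := A) (by positivity) hA r
    refine ⟨C1 * C2, by positivity, ?_⟩
    intro q x hq1 hq2 hx1 hx2 D hD hDA G hG hI g hg
    have hq : 0 < q := lt_of_lt_of_le (by positivity) hq1
    have hx : 0 < x := lt_of_lt_of_le (by positivity) hx1
    have hqi : 1 / q ≤ c := by
      rw [div_le_iff₀ hq]
      rw [div_le_iff₀ hc0] at hq1
      linarith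
    have hxi : 1 / x ≤ c := by
      rw [div_le_iff₀ hx]
      rw [div_le_iff₀ hc0] at hx1
      linarith
    have hτ0 : 0 < x / q := div_pos hx hq
    have hτ : x / q ≤ c * c := by
      rw [div_eq_mul_one_div]
      exact mul_le_mul hx2 hqi (by positivity) hc0.le
    have hτi : (x / q)⁻¹ ≤ c * c := by
      rw [inv_div, div_eq_mul_one_div]
      exact mul_le_mul hq2 hxi (by positivity) hc0.le
    have hsq : 0 < Real.sqrt (x / q) := Real.sqrt_pos.2 hτ0
    have h3 : (1 + x / q) / Real.sqrt (x / q) ≤ 2 * c := by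
      have e1 : (1 + x / q) / Real.sqrt (x / q) = (Real.sqrt (x / q))⁻¹ + Real.sqrt (x / q) := by
        rw [add_div, Real.div_sqrt, one_div]
      have e2 : Real.sqrt (x / q) ≤ c := by
        rw [Real.sqrt_le_left hc0.le]
        linarith [sq c]
      have e3 : (Real.sqrt (x / q))⁻¹ ≤ c := by
        rw [← Real.sqrt_inv, Real.sqrt_le_left hc0.le]
        linarith [sq c]
      rw [e1]
      linarith
    have h4 : x + x / q ≤ c + c * c := by linarith
    have h5 := h1 q x hq hx h3 D hD G (fun F hF => (hG F hF).1) hI g hg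
    have h6 := h2 q x hq hx h4 D hD hDA
    have hw : ∀ F, 0 < wt q x D F := Pool.Agent.U198.FK.wt_pos hq hx D
    obtain ⟨Z, hZ⟩ : ∃ Z, Z = ∑ F ∈ D.edges.powerset, wt q x D F := ⟨_, rfl⟩
    have hZ0 : 0 < Z := by
      rw [hZ]
      exact Finset.sum_pos (fun F _ => hw F) ⟨∅, Finset.empty_mem_powerset _⟩
    have e1 : mean q x D (fun F => G F * Seq.D 4 r g (D.len F)) =
        (∑ F ∈ D.edges.powerset, wt q x D F * (G F * Seq.D 4 r g (D.len F))) / Z := by
      rw [hZ]
      rfl
    have e2 : inv r q x D = (∑ F ∈ D.edges.powerset, wt q x D F *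
        (1 / Real.sqrt (D.len F + 1) ^ r)) / Z := by
      rw [hZ]
      rfl
    rw [e1, e2, abs_div, abs_of_pos hZ0, ← mul_div_assoc]
    refine div_le_div_of_nonneg_right ?_ hZ0.le
    refine h5.trans ?_
    rw [mul_assoc]
    refine mul_le_mul_of_nonneg_left (le_trans ?_ h6) hC1.le
    refine Finset.sum_le_sum fun F hF => ?_
    refine mul_le_mul_of_nonneg_left ?_ (hw F).le
    exact div_le_div_of_nonneg_right (hG F (Finset.mem_powerset.1 hF)).2 (by positivity)
  obtain ⟨B1, hB1, h1⟩ := key0 r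
  obtain ⟨B2, hB2, h2⟩ := key0 (r + 1)
  refine ⟨max B1 B2, ?_⟩
  intro q x hq1 hq2 hx1 hx2 D hD hDA G hG hI
  have hq : 0 < q := lt_of_lt_of_le (by positivity) hq1
  have hx : 0 < x := lt_of_lt_of_le (by positivity) hx1
  have hw : ∀ F, 0 < weight q x D F := Pool.Agent.U198.FK.wt_pos hq hx D
  have hinv : ∀ r, 0 ≤ inv r q x D := by
    intro r
    unfold inv mean
    refine div_nonneg (Finset.sum_nonneg fun F _ => ?_) (Finset.sum_nonneg fun F _ => (hw F).le)
    exact mul_nonneg (hw F).le (by positivity)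
  -- differences of the mean value
  have key : ∀ (r : ℕ) (g : ℕ → ℝ), ∑ i ∈ Finset.range (r + 1), (-1 : ℝ) ^ i * (r.choose i : ℝ) *
      mean q x D (fun F => G F * g (D.len F + 4 * i)) =
      mean q x D (fun F => G F * Seq.D 4 r g (D.len F)) := by
    intro r g
    unfold mean
    simp_rw [← mul_div_assoc]
    rw [← Finset.sum_div]
    congr 1
    unfold Seq.D
    simp_rw [Finset.mul_sum]
    rw [Finset.sum_comm]
    refine Finset.sum_congr rfl fun F _ => Finset.sum_congr rfl fun i _ => ?_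
    ring
  have main1 : ∀ g : ℕ → ℝ, (∀ n, |g n| ≤ 1) →
      |mean q x D (fun F => G F * Seq.D 4 r g (D.len F))| ≤ max B1 B2 * inv r q x D := by
    intro g hg
    refine (h1 q x hq1 hq2 hx1 hx2 D hD hDA G hG hI g hg).trans ?_
    exact mul_le_mul_of_nonneg_right (le_max_left _ _) (hinv r)
  have main2 : ∀ g : ℕ → ℝ, (∀ n, |g n| ≤ 1) →
      |mean q x D (fun F => G F * Seq.D 4 (r + 1) g (D.len F))| ≤
        max B1 B2 * inv (r + 1) q x D := by
    intro g hg
    refine (h2 q x hq1 hq2 hx1 hx2 D hD hDA G hG hI g hg).trans ?_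
    exact mul_le_mul_of_nonneg_right (le_max_right _ _) (hinv (r + 1))
  refine ⟨fun F hF => ?_, fun g hg => ?_, fun k => ?_, fun t s => ?_⟩
  · have h7 := walk_sd D F (Nat.zero_le (D.len F))
    rw [walk_zero, walk_len hD hF, Nat.sub_zero] at h7
    have h8 : |D.h - 0| ≤ sd (Dm.start D).1 (Dm.stop).1 := le_max_right _ _
    rw [sub_zero] at h8
    exact (le_abs_self _).trans (h8.trans h7)
  · rw [key]
    exact main1 g hg
  · obtain ⟨g, hg⟩ : ∃ g : ℕ → ℝ, g = fun n => if k + 4 ≤ n ∧ n % 4 = k % 4 then (-1 : ℝ) else 0 :=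
      ⟨_, rfl⟩
    have e1 : Seq.D 4 1 g = fun n => if n = k then (1 : ℝ) else 0 := by
      funext n
      rw [Seq.D_one, hg]
      simp only
      by_cases h7 : n = k
      · subst h7
        rw [if_neg (by omega), if_pos (by omega), if_pos rfl]
        norm_num
      · rw [if_neg h7]
        by_cases h8 : k + 4 ≤ n ∧ n % 4 = k % 4
        · rw [if_pos h8, if_pos (by omega)]
          norm_num
        · rw [if_neg h8, if_neg (by omega)]
          norm_num
    have h3 := main2 g (fun n => by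
      rw [hg]
      simp only
      split_ifs <;> norm_num)
    have e2 : ∀ n, Seq.D 4 (r + 1) g n =
        Seq.D 4 r (fun n => if n = k then (1 : ℝ) else 0) n := by
      intro n
      rw [← e1, Seq.D_D]
    simp only [e2] at h3
    rw [← key] at h3
    exact h3
  · have h3 := main1 (fun n => Real.cos (t * n + (s - r * (2 * t - Real.pi / 2))))
      (fun n => Real.abs_cos_le_one _)
    have e1 : ∀ F : Finset Edg, G F * Seq.D 4 r
        (fun n => Real.cos (t * n + (s - r * (2 * t - Real.pi / 2)))) (D.len F) =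
        (2 * Real.sin (2 * t)) ^ r * (G F * Real.cos (t * D.len F + s)) := by
      intro F
      rw [cos_diff]
      have e2 : s - r * (2 * t - Real.pi / 2) + r * (2 * t - Real.pi / 2) = s := by ring
      rw [e2]
      ring
    have e2 : mean q x D (fun F => (2 * Real.sin (2 * t)) ^ r *
        (G F * Real.cos (t * D.len F + s))) =
        (2 * Real.sin (2 * t)) ^ r * mean q x D (fun F => G F * Real.cos (t * D.len F + s)) := by
      unfold mean
      rw [← mul_div_assoc, Finset.mul_sum]
      congr 1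
      refine Finset.sum_congr rfl fun F _ => ?_
      ring
    simp only [e1] at h3
    rw [e2, abs_mul, abs_pow] at h3
    exact h3

end Pool.Agent.Results.MP_216314_pr.InterfaceStepsAllQ
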