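import Pool.Agent.U154.RD.Fin

/-!
Critical bond percolation on the square lattice (the FK model with `q = 1` at its self-dual point):
the moments of the radii of the nested layers around the origin, up to constants.

`changes n ω` is the minimal number of colour changes of a path from the origin to the distance `n`,
i.e. the number of nested alternating (open / dual-open) layers around the origin, and `radius k ω`
is the least distance `n` with `changes n ω ≥ k`. For every real `λ > -5/48`, the expectation of
`radius k ^ (-λ)` is of the exact order `φ(λ)^k`, where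
`φ(λ) = 1 / (2 cos (π √(1/9 - 4λ/3)))` (with `cosh (π √(4λ/3 - 1/9))` for `λ > 1/12`).
This `φ` is the Laplace transform of the logarithms of the conformal radii of the nested loops of the
conformal loop ensemble with `κ = 6` (Schramm, Sheffield, Wilson 2009).

Definitions: `sqLattice`, `bondLaw`, `hlf` (`= 1/2`), `openGraph` in `Pool.Agent.H974R2.Model`,
`Pool.Agent.H974R2.Infinite`; `Pt`, `Corner`, `Free`, `Change`, `ReachIn`, `norm2`, `changes` in
`Pool.Agent.H863R2.NL.Defs`.

The law on the cylinder is in `Pool.Agent.H863R2`, the link estimates and the tails of the costs of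
rectangles in `Pool.Agent.W819.EN` and the modules imported there (starting repository). New here
(`Pool.Agent.U154.UT`, `Pool.Agent.U154.BE`, `Pool.Agent.U154.MD`, `Pool.Agent.U154.RD`, helper154):
upper and lower bounds of both tails of the number of layers in the plane, uniformly in the level
(local limit theorem for the tilted laws on the cylinder, decoupling inequalities), and the sums of
these bounds over the scales (tilts which depend on the scale).
-/

set_option autoImplicit false

namespace Pool.Agent.Results.MP_216314_pr.NestingRadii

open MeasureTheory H974 Pool.Agent.H863R2.NL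
open scoped Real

/-- the radius of the `k`-th layer -/
noncomputable def radius (k : ℕ) (ω : sqLattice.edgeSet → Bool) : ℕ := sInf {n | k ≤ changes n ω}

/-- the rate -/
noncomputable def phi (lam : ℝ) : ℝ :=
  if lam ≤ 1 / 12 then 1 / (2 * Real.cos (π * √(1 / 9 - 4 * lam / 3)))
  else 1 / (2 * Real.cosh (π * √(4 * lam / 3 - 1 / 9)))

theorem result (lam : ℝ) (hlam : -(5 / 48) < lam) : ∃ c C : ℝ, 0 < c ∧ 0 < C ∧
    ∀ k : ℕ, 1 ≤ k → (∀ᵐ ω ∂(bondLaw hlf), k ≤ changes (radius k ω) ω) ∧
      Integrable (fun ω => (radius k ω : ℝ) ^ (-lam)) (bondLaw hlf) ∧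
      c * phi lam ^ k ≤ ∫ ω, (radius k ω : ℝ) ^ (-lam) ∂(bondLaw hlf) ∧
      ∫ ω, (radius k ω : ℝ) ^ (-lam) ∂(bondLaw hlf) ≤ C * phi lam ^ k :=
  Pool.Agent.U154.RD.radii hlam

end Pool.Agent.Results.MP_216314_pr.NestingRadii
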