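import Pool.Agent.U154.UT.Fin

/-!
Critical bond percolation on the square lattice (the FK model with `q = 1` at its self-dual point):
the upper tail of the number of nested layers around the origin, up to constants which do not depend
on the level: from the scale of the central limit theorem (`ν - ν_c` of order `(log n)^(-1/2)`) up
to the scale of large deviations (`ν` fixed).

`changes n ω` is the minimal number of colour changes of a path from the origin to the distance `n`,
i.e. the number of nested alternating (open / dual-open) layers around the origin. The typical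
density is `ν_c = 1/(2 √3 π)`; the rate function is the Legendre transform of
`s ↦ 3/(4π²) (π²/9 - arccos² (e^s/2) + arcosh² (max (e^s/2) 1))`.

Definitions: `sqLattice`, `bondLaw`, `hlf` (`= 1/2`), `openGraph` in `Pool.Agent.H974R2.Model`,
`Pool.Agent.H974R2.Infinite`; `Pt`, `Corner`, `Free`, `Change`, `ReachIn`, `norm2`, `changes` in
`Pool.Agent.H863R2.NL.Defs`.

The law on the cylinder is in `Pool.Agent.H863R2`, the link estimates and the tails of the costs of
rectangles in `Pool.Agent.W819.EN` and the modules imported there (starting repository). New here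
(`Pool.Agent.U154.UT`, helper154): a decoupling inequality `E[h(T) φ] ≤ K A (E φ²)^(1/2)` for
increasing functions `h` of the number `T` of layers in a box and functions `φ` of the edges outside
half of the box, a local limit theorem for the tilted laws on the cylinder, uniformly in the tilt,
and the comparison of the cylinder with the plane for the indicator functions.
-/

set_option autoImplicit false

namespace Pool.Agent.Results.MP_216314_pr.NestingUniformUpperTail

open MeasureTheory H974 Pool.Agent.H863R2.NL
open scoped Real

theorem result (ν₂ : ℝ) (hν₂ : 1 / (2 * √3 * π) < ν₂) :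
    ∃ c C : ℝ, 0 < c ∧ 0 < C ∧ ∃ n₀ : ℕ, ∀ n : ℕ, n₀ ≤ n →
      ∀ ν : ℝ, 1 / (2 * √3 * π) ≤ ν → ν ≤ ν₂ →
        c * ((n : ℝ) ^ (-(⨆ s : ℝ, (s * ν - 3 / (4 * π ^ 2) * (π ^ 2 / 9 -
            Real.arccos (Real.exp s / 2) ^ 2 + Real.arcosh (max (Real.exp s / 2) 1) ^ 2)))) /
            (1 + (ν - 1 / (2 * √3 * π)) * √(Real.log n))) ≤
          (bondLaw hlf).real {ω | ν * Real.log n ≤ changes n ω} ∧
        (bondLaw hlf).real {ω | ν * Real.log n ≤ changes n ω} ≤
        C * ((n : ℝ) ^ (-(⨆ s : ℝ, (s * ν - 3 / (4 * π ^ 2) * (π ^ 2 / 9 -
            Real.arccos (Real.exp s / 2) ^ 2 + Real.arcosh (max (Real.exp s / 2) 1) ^ 2)))) /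
            (1 + (ν - 1 / (2 * √3 * π)) * √(Real.log n))) :=
  Pool.Agent.U154.UT.unif hν₂

end Pool.Agent.Results.MP_216314_pr.NestingUniformUpperTail
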