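import Pool.Agent.U151.HH.All
import Pool.Agent.Results.MP_6c8efb_pr.SpecialPoints

/-!
# The half-plane interface of critical bond percolation: the double points of all subpaths

Critical bond percolation (the random-cluster model with `q = 1`) on `ℤ × ℕ`, the edges `[x, x + 1]`
of the real axis open for `x < 0` and closed for `x ≥ 0`. The interface (exploration path) starts next
to the origin and keeps the open cluster of the negative half-axis on its left; `gam ω k` is its point
after `k` steps, and `curve n ω` is the path `n ^ (-4/7) γ(n t)`, `0 ≤ t ≤ 1`, with law `lawH n`. Weak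
limits exist along a subsequence of every sequence `n → ∞`. (If interfaces converge to chordal
SLE(6), the limit is SLE(6) from `0` to `∞`, in its natural time, up to time `1`.)

For every weak limit, almost surely, simultaneously for ALL `0 ≤ s < t ≤ 1`: the points of the open
half-plane which the curve visits at least twice between the times `s` and `t` have Hausdorff dimension
exactly `3/4`, and the times in `[s, t]` at which the curve is at such a point have dimension exactly
`3/7`.

Definitions: `Pool.Agent.H984R4.HN.HPDefs` (`Conf`, `perc`, `opn`, `step`, `path`, `place`, `gam`,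
`curve`), `Pool.Agent.H984R4.HN.FinalH` (`lawH`), `Pool.Agent.H984R4.NP.Model` (`pl`, `clamp`).

The starting file `MP_6c8efb_pr.DoublePointsExact` has the double points of the pasts `f [0, t]` and
near the origin, found in independent annuli around the starting point. Here the path has to be
followed. Run backwards, it is an orbit of the interface rule of the library for the rectangle; every
strand of macroscopic size in the bulk is explored step by step, and at the tips of longer and longer
strands trials are made, in which two hooks of open and closed edges guide the interface to a fresh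
square with about `m ^ (3/4)` open edges with two open arms, both sides of which are joined by closed
dual paths to the dual side of the interface (`Pool.Agent.U151.DB`, made for
`MP_35f495_pr.ArcDoublePoints`). A side potential shows that this very strand visits such an edge on
both sides, the two arms force a macroscopic excursion between the two visits. The probability that
all of `K` trials fail is exponentially small in `K`, the number of strands only polynomial. The
passage to the limit uses closed sets of curves, for all pairs of times at once.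
-/

set_option autoImplicit false

namespace Pool.Agent.Results.MP_216314_pr.SubpathDoublePoints

open H984H MeasureTheory Filter Topology Pool.Agent.Results.MP_6c8efb_pr
open scoped ENNReal NNReal

/-- The points of the open half-plane which `f` visits at least twice between the times `s` and
`t`. -/
def doublePoints (f : C(unitInterval, ℂ)) (s t : unitInterval) : Set ℂ :=
  {z | 0 < z.im ∧ ∃ a b : unitInterval, s ≤ a ∧ a < b ∧ b ≤ t ∧ f a = z ∧ f b = z}

/-- The times between `s` and `t` at which `f` is at such a point. -/
def doubleTimes (f : C(unitInterval, ℂ)) (s t : unitInterval) : Set unitInterval :=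
  {a | (s ≤ a ∧ a ≤ t) ∧ 0 < (f a).im ∧ ∃ b, (s ≤ b ∧ b ≤ t) ∧ b ≠ a ∧ f b = f a}

theorem image_doubleTimes (f : C(unitInterval, ℂ)) (s t : unitInterval) :
    f '' doubleTimes f s t = doublePoints f s t := by
  ext z
  constructor
  · rintro ⟨a, ⟨⟨g1, g2⟩, g0, b, ⟨g3, g4⟩, h1, h2⟩, rfl⟩
    rcases lt_or_gt_of_ne h1 with h | h
    · exact ⟨g0, b, a, g3, h, g2, h2, rfl⟩
    · exact ⟨g0, a, b, g1, h, g4, rfl, h2⟩
  · rintro ⟨g0, a, b, g1, h, g4, h1, h2⟩
    exact ⟨a, ⟨⟨g1, h.le.trans g4⟩, by rw [h1]; exact g0, b, ⟨g1.trans h.le, g4⟩, h.ne',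
      by rw [h1, h2]⟩, h1⟩

theorem dim_Icc {s t : unitInterval} (hst : s < t) : dimH (Set.Icc s t) = 1 := by
  have hst' : (s : ℝ) < t := hst
  have h1 : (fun x : unitInterval => (x : ℝ)) '' Set.Icc s t = Set.Icc (s : ℝ) t := by
    ext y
    constructor
    · rintro ⟨x, hx, rfl⟩
      exact hx
    · intro hy
      exact ⟨⟨y, s.2.1.trans hy.1, hy.2.trans t.2.2⟩, hy, rfl⟩
  have h2 : Isometry (fun x : unitInterval => (x : ℝ)) := isometry_subtype_coe
  rw [← h2.dimH_image, h1]
  have h3 : (interior (Set.Icc (s : ℝ) t)).Nonempty := by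
    rw [interior_Icc]
    exact Set.nonempty_Ioo.2 hst'
  rw [Real.dimH_of_nonempty_interior h3, Module.finrank_self, Nat.cast_one]

theorem one_lt : (1 : ℝ≥0∞) < 7 / 4 := by
  rw [ENNReal.lt_div_iff_mul_lt (Or.inl (by norm_num)) (Or.inl (by norm_num))]
  norm_num

theorem solve {x : ℝ≥0∞} (h : 7 / 4 * x = 3 / 4) : x = 3 / 7 := by
  have hx : x ≠ ⊤ := by
    rintro rfl
    rw [ENNReal.mul_top (by simp)] at h
    exact absurd h.symm (by
      rw [← ne_eq]
      exact (ENNReal.div_lt_top (by norm_num) (by norm_num)).ne)
  have h2 := congrArg ENNReal.toReal h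
  rw [ENNReal.toReal_mul, ENNReal.toReal_div, ENNReal.toReal_div] at h2
  have h3 : x.toReal = 3 / 7 := by
    norm_num at h2
    linarith
  rw [← ENNReal.ofReal_toReal hx, h3, ENNReal.ofReal_div_of_pos (by norm_num)]
  norm_num

/-- The real line. -/
def line : Set ℂ := {z | z.im = 0}

theorem dim_line : dimH line ≤ 1 := by
  have h1 : line ⊆ Set.range (fun x : ℝ => (x : ℂ)) := by
    intro z hz
    exact ⟨z.re, Complex.ext rfl (by simpa using (Eq.symm hz))⟩
  have h2 : LipschitzWith 1 (fun x : ℝ => (x : ℂ)) := Complex.isometry_ofReal.lipschitz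
  have h3 := h2.dimH_range_le
  rw [Real.dimH_univ] at h3
  exact (dimH_mono h1).trans h3

/-- **The double points of all subpaths.**
(1) Every sequence `φ → ∞` has a subsequence along which the law of the rescaled interface converges.
(2) For every limit, almost surely, for all `s < t` in `[0, 1]`: the points of the open half-plane
visited at least twice between the times `s` and `t` have Hausdorff dimension exactly `3/4`; the times
in `[s, t]` at which the curve is at such a point have dimension exactly `3/7`. -/
theorem result :
    (∀ φ : ℕ → ℕ, Tendsto φ atTop atTop → ∃ ψ : ℕ → ℕ, StrictMono ψ ∧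
      ∃ μ : ProbabilityMeasure C(unitInterval, ℂ),
        Tendsto (fun i => lawH (φ (ψ i))) atTop (𝓝 μ)) ∧
    (∀ φ : ℕ → ℕ, Tendsto φ atTop atTop → ∀ μ : ProbabilityMeasure C(unitInterval, ℂ),
      Tendsto (fun i => lawH (φ i)) atTop (𝓝 μ) →
      ∀ᵐ f : C(unitInterval, ℂ) ∂(μ : Measure C(unitInterval, ℂ)), ∀ s t : unitInterval, s < t →
        dimH (doublePoints f s t) = 3 / 4 ∧ dimH (doubleTimes f s t) = 3 / 7) := by
  refine ⟨UniformDimension.result.1, fun φ hφ μ hμ => ?_⟩
  filter_upwards [UniformDimension.result.2 φ hφ μ hμ,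
    Displacement.result.2.2.2.2.2 φ hφ μ hμ, (SpecialPoints.result.2 φ hφ μ hμ).2.1,
    Pool.Agent.U151.HH.arcsHD hφ hμ] with f hu hd hs harc
  obtain ⟨-, him, -, -, -⟩ := hd
  intro s t hst
  have hns : ¬ (f '' Set.Icc s t).Subsingleton := by
    intro hcon
    have h3 := hu (Set.Icc s t)
    rw [dimH_subsingleton hcon, dim_Icc hst, mul_one] at h3
    have h4 : (0 : ℝ≥0∞) < 7 / 4 := lt_trans one_pos one_lt
    exact absurd h3 h4.ne
  have hmeet : (f '' Set.Icc s t ∩ {z | 0 < z.im}).Nonempty := by
    by_contra hcon
    rw [Set.not_nonempty_iff_eq_empty] at hcon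
    have h3 : f '' Set.Icc s t ⊆ line := by
      rintro _ ⟨x, hx, rfl⟩
      by_contra h6
      have h7 : f x ∈ f '' Set.Icc s t ∩ {z | 0 < z.im} :=
        ⟨⟨x, hx, rfl⟩, lt_of_le_of_ne (him x) (Ne.symm h6)⟩
      rw [hcon] at h7
      exact h7
    have h4 := (dimH_mono h3).trans dim_line
    rw [hu, dim_Icc hst, mul_one] at h4
    exact absurd h4 (not_le.2 one_lt)
  have hlow : (3 / 4 : ℝ≥0∞) ≤ dimH (doublePoints f s t) := by
    refine (harc s t hmeet hns).trans (dimH_mono ?_)
    rintro z ⟨⟨a, b, c, ⟨g1, g2⟩, ⟨g3, g4⟩, g5, g6, g7⟩, g0⟩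
    refine ⟨g0, a, c, g1, lt_of_le_of_ne (g2.trans g3) ?_, g4, g5, g6⟩
    rintro rfl
    have h3 : b = a := le_antisymm g3 g2
    rw [h3] at g7
    exact g7 g5
  have hup : dimH (doublePoints f s t) ≤ 3 / 4 := by
    refine (dimH_mono ?_).trans hs.1
    rintro z ⟨g0, a, b, -, g2, -, g4, g5⟩
    exact ⟨⟨a, b, g2, g4, g5⟩, g0⟩
  have hall : dimH (doublePoints f s t) = 3 / 4 := le_antisymm hup hlow
  refine ⟨hall, ?_⟩
  apply solve
  rw [← hu, image_doubleTimes, hall]

end Pool.Agent.Results.MP_216314_pr.SubpathDoublePoints
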